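import Pool.Agent.NHJ.Mod
import Pool.Agent.COR.Rep
import Pool.Agent.RBN.Cir

/-!
# NHJ/Main: the number `j` does not matter

`twin_shift`, `twin_shift'`: a `TwinP` for `κ`, `n`, `j` gives one for `κ`, `n`, `j - 1` and for `κ`, `n`, `j + 1`.
`roll_shift`: `IsRollGluck κ n j X ↔ IsRollGluck κ n j' X` for all `j`, `j'`.
-/

open scoped Manifold ContDiff Topology
open Set Filter
open Complex (I)
open Pool.Agent.RSG
open Pool.Agent.RBM (ThickT TwinP OnT)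
open Pool.Agent.RBN (IN prd dic)

namespace Pool.Agent.NHJ

universe u

theorem ex_shift (x : ℝ) : ex (x + 1 / 2) = -ex x := by
  rw [ex_add, ex_half, mul_neg_one]

/-- `(w / ‖w‖)²` -/
theorem unit_ex {w : ℂ} {x : ℝ} (hw : 1 / 4 ≤ ‖w‖ ^ 2) (h : w = ‖w‖ * ex x) : (w / ‖w‖) ^ 2 = ex (2 * x) := by
  have h1 : (‖w‖ : ℂ) ≠ 0 := by
    intro h2
    have h3 : ‖w‖ = 0 := by exact_mod_cast h2
    rw [h3] at hw
    norm_num at hw
  have h2 : w / ‖w‖ = ex x := by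
    rw [div_eq_iff h1, mul_comm]
    exact h
  rw [h2, two_mul, ex_add, pow_two]

section
variable {EP : Type*} [NormedAddCommGroup EP] [NormedSpace ℝ EP] {HP : Type*} [TopologicalSpace HP]
  {IP : ModelWithCorners ℝ EP HP} {P : Type*} [TopologicalSpace P] [ChartedSpace HP P]
  {κ : ℝ × ℂ × ℝ → P} {X : Type u} [TopologicalSpace X] [ChartedSpace E4 X] {n j : ℤ}

theorem Main_glue (D : TwinP IP κ n j X) (Φ : S4 → S4) (j' : ℤ)
    (h : ∀ z : S4, 7 / 8 < 2 * ‖c1 z‖ * ‖c2 z‖ → ∀ m t : ℝ, c1 z = ‖c1 z‖ * ex (m + (1 - j') * t) →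
      c2 z = ‖c2 z‖ * ex (m - j' * t) → ‖c1 (Φ z)‖ = ‖c2 z‖ ∧ ‖c2 (Φ z)‖ = ‖c1 z‖ ∧ fh (Φ z) = -fh z ∧
        c1 (Φ z) = ‖c1 (Φ z)‖ * ex (m + (1 - j) * t) ∧ c2 (Φ z) = ‖c2 (Φ z)‖ * ex (m - j * t))
    (z : S4) (l m t : ℝ) (hf : fh z ≠ 0) (hr : 7 / 8 < 2 * ‖c1 z‖ * ‖c2 z‖) (e1 : c1 z = ‖c1 z‖ * ex (m + (1 - j') * t))
    (e2 : c2 z = ‖c2 z‖ * ex (m - j' * t)) (e3 : fh z = ‖fh z‖ * ex (l - n * t)) :
    D.Q (Φ z) = D.A (κ (l + 1 / 2, (2 * ‖c1 z‖ * ‖c2 z‖ : ℝ) * ex m, t)) := by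
  obtain ⟨a1, a2, a3, a4, a5⟩ := h z hr m t e1 e2
  obtain ⟨f1, f2⟩ := far_of hr
  have n1 : c1 (Φ z) ≠ 0 := by
    rw [← norm_ne_zero_iff, a1]
    intro h0
    rw [h0] at f2
    norm_num at f2
  have n2 : c2 (Φ z) ≠ 0 := by
    rw [← norm_ne_zero_iff, a2]
    intro h0
    rw [h0] at f1
    norm_num at f1
  have hf' : fh (Φ z) ≠ 0 := by
    rw [a3]
    exact neg_ne_zero.2 hf
  have e3' : fh (Φ z) = ‖fh (Φ z)‖ * ex (l + 1 / 2 - n * t) := by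
    rw [a3, norm_neg, show l + 1 / 2 - (n : ℝ) * t = l - n * t + 1 / 2 by ring, ex_shift, mul_neg, ← e3]
  rw [D.glue (Φ z) (l + 1 / 2) m t hf' n1 n2 a4 a5 e3', a1, a2]
  congr 3
  rw [show 2 * ‖c2 z‖ * ‖c1 z‖ = 2 * ‖c1 z‖ * ‖c2 z‖ by ring]

theorem Main_core [T2Space P] (hκ : ThickT IP κ) (D : TwinP IP κ n j X) (j' : ℤ) (Φ : Equiv.Perm S4)
    (hΦ : ∀ z, IsLocalDiffeomorphAt (𝓡 4) (𝓡 4) ∞ Φ z) (hne : ∀ z, fh (Φ z) ≠ 0 ↔ fh z ≠ 0)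
    (h : ∀ z : S4, 7 / 8 < 2 * ‖c1 z‖ * ‖c2 z‖ → ∀ m t : ℝ, c1 z = ‖c1 z‖ * ex (m + (1 - j') * t) →
      c2 z = ‖c2 z‖ * ex (m - j' * t) → ‖c1 (Φ z)‖ = ‖c2 z‖ ∧ ‖c2 (Φ z)‖ = ‖c1 z‖ ∧ fh (Φ z) = -fh z ∧
        c1 (Φ z) = ‖c1 (Φ z)‖ * ex (m + (1 - j) * t) ∧ c2 (Φ z) = ‖c2 (Φ z)‖ * ex (m - j * t)) :
    Nonempty (TwinP IP κ n j' X) := by
  have hφ : ContDiff ℝ ∞ fun l : ℝ => l + 1 / 2 := contDiff_id.add contDiff_const
  have hφ1 : ∀ l : ℝ, (fun l : ℝ => l + 1 / 2) (l + 1) = (fun l : ℝ => l + 1 / 2) l + 1 := fun l => by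
    show l + 1 + 1 / 2 = l + 1 / 2 + 1
    ring
  have hφ' : ∀ l : ℝ, 0 < deriv (fun l : ℝ => l + 1 / 2) l := fun l => by
    have h0 : HasDerivAt (fun l : ℝ => l + 1 / 2) 1 l := (hasDerivAt_id l).add_const (1 / 2 : ℝ)
    rw [h0.deriv]
    exact one_pos
  have hκ' : ThickT IP (fun q => κ ((fun l : ℝ => l + 1 / 2) q.1, q.2)) := COR.thick_rep hκ hφ hφ1 hφ'
  have hm : Nonempty (TwinP IP (fun q : ℝ × ℂ × ℝ => κ ((fun l : ℝ => l + 1 / 2) q.1, q.2)) n j' X) := by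
    refine modify hκ hκ' D ?_ Φ hΦ hne (Main_glue D Φ j' h)
    intro p r
    constructor
    · rintro ⟨l, v, t, h1, h2⟩
      exact ⟨l + 1 / 2, v, t, h1, h2⟩
    · rintro ⟨l, v, t, h1, h2⟩
      refine ⟨l - 1 / 2, v, t, h1, ?_⟩
      show p = κ (l - 1 / 2 + 1 / 2, v, t)
      rw [sub_add_cancel]
      exact h2
  obtain ⟨D'⟩ := hm
  have h1 := COR.rep hκ' hφ hφ1 hφ' D'
  have h2 : (fun q : ℝ × ℂ × ℝ => (fun q : ℝ × ℂ × ℝ => κ ((fun l : ℝ => l + 1 / 2) q.1, q.2))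
      ((fun l : ℝ => l + 1 / 2) q.1, q.2)) = κ := by
    funext q
    show κ (q.1 + 1 / 2 + 1 / 2, q.2) = κ q
    rw [show q.1 + 1 / 2 + 1 / 2 = q.1 + 1 by ring]
    exact hκ.perl q.1 q.2.1 q.2.2
  rwa [h2] at h1

/-- **The shift `j → j - 1`.** -/
theorem twin_shift [T2Space P] (hκ : ThickT IP κ) (D : TwinP IP κ n j X) : Nonempty (TwinP IP κ n (j - 1) X) := by
  refine Main_core hκ D (j - 1) PsiP PsiP_ld Psi_ne ?_
  intro z hr m t e1 e2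
  obtain ⟨f1, f2⟩ := far_of hr
  obtain ⟨a1, a2, a3⟩ := Psi_far f2
  have n1 : ‖c1 (Psi z)‖ = ‖c2 z‖ := by rw [a1]
  have n2 : ‖c2 (Psi z)‖ = ‖c1 z‖ := by
    rw [a2, norm_mul, unit_sq f2, one_mul, RCLike.norm_conj]
  refine ⟨n1, n2, Psi_fh f2, ?_, ?_⟩
  · show c1 (Psi z) = ‖c1 (Psi z)‖ * _
    rw [n1, a1]
    have : m + (1 - (j : ℝ)) * t = m - ((j - 1 : ℤ) : ℝ) * t := by push_cast; ring
    rw [this]
    exact e2
  · show c2 (Psi z) = ‖c2 (Psi z)‖ * _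
    rw [n2, a2, unit_ex f2 e2]
    have h1 : (starRingEnd ℂ) (c1 z) = ‖c1 z‖ * ex (-(m + (1 - ((j - 1 : ℤ) : ℝ)) * t)) := by
      conv_lhs => rw [e1]
      rw [map_mul, Complex.conj_ofReal, ex_neg]
    rw [h1, mul_left_comm, ← ex_add]
    congr 2
    push_cast
    ring

/-- **The shift `j → j + 1`.** -/
theorem twin_shift' [T2Space P] (hκ : ThickT IP κ) (D : TwinP IP κ n j X) : Nonempty (TwinP IP κ n (j + 1) X) := by
  refine Main_core hκ D (j + 1) PsiP.symm PsiP_symm_ld Psi'_ne ?_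
  intro z hr m t e1 e2
  obtain ⟨f1, f2⟩ := far_of hr
  obtain ⟨a1, a2, a3⟩ := Psi'_far f1
  have n1 : ‖c1 (Psi' z)‖ = ‖c2 z‖ := by
    rw [a1, norm_mul, unit_sq f1, one_mul, RCLike.norm_conj]
  have n2 : ‖c2 (Psi' z)‖ = ‖c1 z‖ := by rw [a2]
  refine ⟨n1, n2, Psi'_fh f1, ?_, ?_⟩
  · show c1 (Psi' z) = ‖c1 (Psi' z)‖ * _
    rw [n1, a1, unit_ex f1 e1]
    have h1 : (starRingEnd ℂ) (c2 z) = ‖c2 z‖ * ex (-(m - ((j + 1 : ℤ) : ℝ) * t)) := by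
      conv_lhs => rw [e2]
      rw [map_mul, Complex.conj_ofReal, ex_neg]
    rw [h1, mul_left_comm, ← ex_add]
    congr 2
    push_cast
    ring
  · show c2 (Psi' z) = ‖c2 (Psi' z)‖ * _
    rw [n2, a2]
    have : m - (j : ℝ) * t = m + (1 - ((j + 1 : ℤ) : ℝ)) * t := by push_cast; ring
    rw [this]
    exact e1

/-- every `j'` -/
theorem twin_all [T2Space P] (hκ : ThickT IP κ) (D : TwinP IP κ n j X) (j' : ℤ) : Nonempty (TwinP IP κ n j' X) := by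
  have up : ∀ k : ℕ, Nonempty (TwinP IP κ n (j + k) X) := by
    intro k
    induction k with
    | zero => exact ⟨by simpa using D⟩
    | succ k ih =>
      obtain ⟨D'⟩ := ih
      have h := twin_shift' hκ D'
      rw [show j + (k : ℤ) + 1 = j + ((k + 1 : ℕ) : ℤ) by push_cast; ring] at h
      exact h
  have dn : ∀ k : ℕ, Nonempty (TwinP IP κ n (j - k) X) := by
    intro k
    induction k with
    | zero => exact ⟨by simpa using D⟩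
    | succ k ih =>
      obtain ⟨D'⟩ := ih
      have h := twin_shift hκ D'
      rw [show j - (k : ℤ) - 1 = j - ((k + 1 : ℕ) : ℤ) by push_cast; ring] at h
      exact h
  rcases Int.le_total j j' with h | h
  · obtain ⟨k, hk⟩ := Int.le.dest h
    rw [← hk]
    exact up k
  · obtain ⟨k, hk⟩ := Int.le.dest h
    rw [show j' = j - (k : ℤ) by omega]
    exact dn k

end

/-- **The number `j` does not matter.** -/
theorem roll_shift {N : Type*} [TopologicalSpace N] [ChartedSpace E3 N] [T2Space N] {κ : ℝ × ℂ → N} (hκ : Thick κ)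
    {n j j' : ℤ} {X : Type u} [TopologicalSpace X] [ChartedSpace E4 X] :
    IsRollGluck κ n j X ↔ IsRollGluck κ n j' X := by
  have key : ∀ {i i' : ℤ}, IsRollGluck κ n i X → IsRollGluck κ n i' X := by
    intro i i' h
    obtain ⟨D⟩ := dic.2 h
    exact dic.1 (twin_all (RBN.prd_thick hκ) D i')
  exact ⟨key, key⟩

end Pool.Agent.NHJ
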