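import Pool.Agent.NHJ.Psi
import Pool.Agent.COR.Ger
import Pool.Agent.COR.Kmv
import Pool.Agent.RBM.TorP

/-!
# NHJ/Mod: change of the gluing of a twin by a diffeomorphism `Φ` of the 4-sphere

`modify`: `Q' = Q ∘ Φ`; near the torus (`r > 7/8`) this is compatible with the gluing for `κ'`, `j'`; `A'` is `A` for `r > 7/8` and
`A' (κ' (l, v, t)) = Q' (Gc n j' (l, v, t))` for `0 < ‖v‖ < 1`.
-/

open scoped Manifold ContDiff Topology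
open Set Filter
open Complex (I)
open Pool.Agent.RSG
open Pool.Agent.RBM (ThickT TwinP OnT)

namespace Pool.Agent.NHJ

universe u

section
variable {EP : Type*} [NormedAddCommGroup EP] [NormedSpace ℝ EP] {HP : Type*} [TopologicalSpace HP]
  {IP : ModelWithCorners ℝ EP HP} {P : Type*} [TopologicalSpace P] [ChartedSpace HP P]
  {κ κ' : ℝ × ℂ × ℝ → P} {X : Type u} [TopologicalSpace X] [ChartedSpace E4 X] {n j j' : ℤ}

/-- the points `Q z` are not in the image of the outside of the tube -/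
theorem Q_ne_A (hκ : ThickT IP κ) (D : TwinP IP κ n j X) {z : S4} (hz : fh z ≠ 0) {p : P}
    (hp : ∀ l v t, ‖v‖ < 1 → p ≠ κ (l, v, t)) : D.Q z ≠ D.A p := by
  have hpT : ¬ OnT κ p := by
    rintro ⟨l, t, h⟩
    exact hp l 0 t (by simp) h
  by_cases h12 : c1 z = 0 ∨ c2 z = 0
  · exact D.disj z p hz h12 hpT
  · push Not at h12
    obtain ⟨l, m, t, e1, e2, e3⟩ := COR.phase n j z
    rw [D.glue z l m t hz h12.1 h12.2 e1 e2 e3]
    intro h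
    have hn : ‖((2 * ‖c1 z‖ * ‖c2 z‖ : ℝ) : ℂ) * ex m‖ < 1 := glue_norm hz m
    have hv : ((2 * ‖c1 z‖ * ‖c2 z‖ : ℝ) : ℂ) * ex m ≠ 0 := by
      refine mul_ne_zero ?_ (ex_ne m)
      have p1 := norm_pos_iff.2 h12.1
      have p2 := norm_pos_iff.2 h12.2
      have : (0 : ℝ) < 2 * ‖c1 z‖ * ‖c2 z‖ := by positivity
      exact_mod_cast this.ne'
    have hnT : ¬ OnT κ (κ (l, ((2 * ‖c1 z‖ * ‖c2 z‖ : ℝ) : ℂ) * ex m, t)) := by
      rintro ⟨l', t', h'⟩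
      exact hv (hκ.inj _ _ _ _ _ _ hn (by simp) h').1
    exact hp _ _ _ hn (D.A_inj _ _ hnT hpT h).symm

/-- the direction of a nonzero complex number -/
theorem dir_of {v : ℂ} (hv : v ≠ 0) : ∃ m : ℝ, v / ‖v‖ = ex m ∧ ((‖v‖ : ℝ) : ℂ) * ex m = v := by
  have hvp : 0 < ‖v‖ := norm_pos_iff.2 hv
  obtain ⟨m, hm⟩ := ex_surj (u := v / ‖v‖) (by
    rw [norm_div, Complex.norm_real, norm_norm, div_self hvp.ne'])
  refine ⟨m, hm, ?_⟩
  rw [← hm]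
  have : ((‖v‖ : ℝ) : ℂ) ≠ 0 := by exact_mod_cast hvp.ne'
  field_simp

/-- the phases of `Gc n j (l, v, t)` -/
theorem Gc_phases (n j : ℤ) {l t : ℝ} {v : ℂ} (h0 : v ≠ 0) (h1 : ‖v‖ < 1) : ∃ m : ℝ, ((‖v‖ : ℝ) : ℂ) * ex m = v ∧
    fh (Gc n j (l, v, t)) ≠ 0 ∧ c1 (Gc n j (l, v, t)) ≠ 0 ∧ c2 (Gc n j (l, v, t)) ≠ 0 ∧
    2 * ‖c1 (Gc n j (l, v, t))‖ * ‖c2 (Gc n j (l, v, t))‖ = ‖v‖ ∧
    c1 (Gc n j (l, v, t)) = ‖c1 (Gc n j (l, v, t))‖ * ex (m + (1 - j) * t) ∧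
    c2 (Gc n j (l, v, t)) = ‖c2 (Gc n j (l, v, t))‖ * ex (m - j * t) ∧
    fh (Gc n j (l, v, t)) = ‖fh (Gc n j (l, v, t))‖ * ex (l - n * t) := by
  obtain ⟨hf, a1, a2, hr, e1, e2, e3⟩ := Gc_spec n j (l := l) (t := t) h0 h1
  obtain ⟨m, hm, hm'⟩ := dir_of h0
  rw [hm, ← ex_add] at e1 e2
  refine ⟨m, hm', hf, a1, a2, hr, e1, ?_, e3⟩
  rw [show m - (j : ℝ) * t = m + -j * t by ring]
  exact e2

theorem glue_Gc (D : TwinP IP κ n j X) {l t : ℝ} {v : ℂ} (h0 : v ≠ 0) (h1 : ‖v‖ < 1) :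
    D.Q (Gc n j (l, v, t)) = D.A (κ (l, v, t)) := by
  obtain ⟨m, hm, hf, a1, a2, hr, e1, e2, e3⟩ := Gc_phases n j (l := l) (t := t) h0 h1
  rw [D.glue _ l m t hf a1 a2 e1 e2 e3, hr, hm]

/-- `Gc` is injective up to the periods -/
theorem Gc_inj (hκ : ThickT IP κ) {l t l' t' : ℝ} {v v' : ℂ} (h0 : v ≠ 0) (h1 : ‖v‖ < 1) (h0' : v' ≠ 0) (h1' : ‖v'‖ < 1)
    (h : Gc n j (l, v, t) = Gc n j (l', v', t')) : κ (l, v, t) = κ (l', v', t') := by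
  obtain ⟨m, hm, hf, a1, a2, hr, e1, e2, e3⟩ := Gc_phases n j (l := l) (t := t) h0 h1
  obtain ⟨m', hm', hf', a1', a2', hr', e1', e2', e3'⟩ := Gc_phases n j (l := l') (t := t') h0' h1'
  rw [← h] at hr' e1' e2' e3'
  have cv : ∀ x y : ℝ, x + (1 - (j : ℝ)) * y = ((1 : ℤ) : ℝ) * x + ((1 - j : ℤ) : ℝ) * y := by
    intro x y
    push_cast
    ring
  have cv' : ∀ x y : ℝ, x - (j : ℝ) * y = ((1 : ℤ) : ℝ) * x + ((-j : ℤ) : ℝ) * y := by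
    intro x y
    push_cast
    ring
  rw [cv] at e1 e1'
  rw [cv'] at e2 e2'
  obtain ⟨hmm, ⟨a, ha⟩, ⟨c, hc⟩⟩ := GerM_phases n j hf a1 a2 e1 e2 e3 e1' e2' e3'
  rw [← hm, ← hm', hmm, ← hr', hr, ha, hc]
  have := Pool.Agent.RBM.kap_int hκ l (((‖v‖ : ℝ) : ℂ) * ex m) t c a
  exact this.symm

theorem modify [T2Space P] (hκ : ThickT IP κ) (hκ' : ThickT IP κ') (D : TwinP IP κ n j X)
    (htube : ∀ p r, (∃ l v t, ‖v‖ = r ∧ p = κ' (l, v, t)) ↔ ∃ l v t, ‖v‖ = r ∧ p = κ (l, v, t))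
    (Φ : Equiv.Perm S4) (hΦ : ∀ z, IsLocalDiffeomorphAt (𝓡 4) (𝓡 4) ∞ Φ z) (hne : ∀ z, fh (Φ z) ≠ 0 ↔ fh z ≠ 0)
    (hg : ∀ (z : S4) (l m t : ℝ), fh z ≠ 0 → 7 / 8 < 2 * ‖c1 z‖ * ‖c2 z‖ → c1 z = ‖c1 z‖ * ex (m + (1 - j') * t) →
      c2 z = ‖c2 z‖ * ex (m - j' * t) → fh z = ‖fh z‖ * ex (l - n * t) →
      D.Q (Φ z) = D.A (κ' (l, (2 * ‖c1 z‖ * ‖c2 z‖ : ℝ) * ex m, t))) :
    Nonempty (TwinP IP κ' n j' X) := by
  classical
  -- the torus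
  have hK : ∀ p, OnT κ' p ↔ OnT κ p := by
    intro p
    constructor
    · rintro ⟨l, t, h⟩
      obtain ⟨l', v, t', hv, h'⟩ := (htube p 0).1 ⟨l, 0, t, by simp, h⟩
      rw [norm_eq_zero] at hv
      exact ⟨l', t', by rw [h', hv]⟩
    · rintro ⟨l, t, h⟩
      obtain ⟨l', v, t', hv, h'⟩ := (htube p 0).2 ⟨l, 0, t, by simp, h⟩
      rw [norm_eq_zero] at hv
      exact ⟨l', t', by rw [h', hv]⟩
  have notT : ∀ l v t, v ≠ 0 → ‖v‖ < 1 → ¬ OnT κ' (κ' (l, v, t)) := by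
    rintro l v t hv hv1 ⟨l', t', h⟩
    exact hv (hκ'.inj _ _ _ _ _ _ hv1 (by simp) h).1
  have hper : ∀ (l : ℝ) (v : ℂ) (t : ℝ) (a c : ℤ), κ' (l + a, v, t + c) = κ' (l, v, t) :=
    fun l v t a c => Pool.Agent.RBM.kap_int hκ' l v t a c
  -- the new map A
  let In : P → Prop := fun p => ∃ q : ℝ × ℂ × ℝ, q.2.1 ≠ 0 ∧ ‖q.2.1‖ < 1 ∧ p = κ' q
  let A' : P → X := fun p => if h : In p then D.Q (Φ (Gc n j' h.choose)) else D.A p
  have hA1 : ∀ l v t, v ≠ 0 → ‖v‖ < 1 → A' (κ' (l, v, t)) = D.Q (Φ (Gc n j' (l, v, t))) := by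
    intro l v t hv hv1
    have h : In (κ' (l, v, t)) := ⟨(l, v, t), hv, hv1, rfl⟩
    have e : A' (κ' (l, v, t)) = D.Q (Φ (Gc n j' h.choose)) := dif_pos h
    rw [e]
    have key : ∀ q : ℝ × ℂ × ℝ, ‖q.2.1‖ < 1 → κ' (l, v, t) = κ' q → Gc n j' q = Gc n j' (l, v, t) := by
      rintro ⟨l', v', t'⟩ b2 b3
      obtain ⟨e1, ⟨a, e2⟩, ⟨c, e3⟩⟩ := hκ'.inj l v t l' v' t' hv1 b2 b3
      subst e1
      rw [e2, e3, Gc_per]
    obtain ⟨b1, b2, b3⟩ := h.choose_spec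
    rw [key _ b2 b3]
  have hA2 : ∀ p, ¬ In p → A' p = D.A p := fun p h => dif_neg h
  have hA3 : ∀ l v t, 7 / 8 < ‖v‖ → ‖v‖ < 1 → A' (κ' (l, v, t)) = D.A (κ' (l, v, t)) := by
    intro l v t hv hv1
    have hv0 : v ≠ 0 := by
      rintro rfl
      rw [norm_zero] at hv
      norm_num at hv
    obtain ⟨m, hm, hf, a1, a2, hr, e1, e2, e3⟩ := Gc_phases n j' (l := l) (t := t) hv0 hv1
    rw [hA1 l v t hv0 hv1, hg _ l m t hf (by rw [hr]; exact hv) e1 e2 e3, hr, hm]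
  have hout : ∀ p, ¬ OnT κ' p → ¬ In p → ∀ l v t, ‖v‖ < 1 → p ≠ κ' (l, v, t) := by
    intro p h1 h2 l v t hv h3
    by_cases h0 : v = 0
    · exact h1 ⟨l, t, by rw [h3, h0]⟩
    · exact h2 ⟨(l, v, t), h0, hv, h3⟩
  have hout' : ∀ p, ¬ OnT κ' p → ¬ In p → ∀ l v t, ‖v‖ < 1 → p ≠ κ (l, v, t) := by
    intro p h1 h2 l v t hv h3
    obtain ⟨l', v', t', h4, h5⟩ := (htube p ‖v‖).2 ⟨l, v, t, rfl, h3⟩
    exact hout p h1 h2 l' v' t' (by rw [h4]; exact hv) h5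
  have hQA : ∀ z p, fh z ≠ 0 → ¬ OnT κ' p → ¬ In p → D.Q (Φ z) ≠ D.A p := fun z p hz h1 h2 =>
    Q_ne_A hκ D ((hne z).2 hz) (hout' p h1 h2)
  have hGne : ∀ l v t, v ≠ 0 → ‖v‖ < 1 → fh (Gc n j' (l, v, t)) ≠ 0 := fun l v t h0 h1 =>
    (Gc_spec n j' (l := l) (t := t) h0 h1).1
  refine ⟨{ A := A', Q := fun z => D.Q (Φ z), A_loc := ?_, A_inj := ?_, Q_loc := ?_,
            Q_inj := ?_, glue := ?_, disj := ?_, cover := ?_ }⟩
  · intro p hp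
    by_cases hI : In p
    · obtain ⟨⟨l, v, t⟩, h0, h1, rfl⟩ := hI
      have hcomp : IsLocalDiffeomorphAt 𝓘(ℝ, ℝ × ℂ × ℝ) (𝓡 4) ∞ (A' ∘ κ') (l, v, t) := by
        have hG := Gc_ld n j' (l := l) (t := t) h0 h1
        have hQ : IsLocalDiffeomorphAt (𝓡 4) (𝓡 4) ∞ (D.Q ∘ Φ) (Gc n j' (l, v, t)) :=
          IsLocalDiffeomorphAt.comp (hf := hΦ _) (hg := D.Q_loc _ ((hne _).2 (hGne l v t h0 h1)))
        have hq : IsLocalDiffeomorphAt 𝓘(ℝ, ℝ × ℂ × ℝ) (𝓡 4) ∞ ((D.Q ∘ Φ) ∘ Gc n j') (l, v, t) :=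
          IsLocalDiffeomorphAt.comp (hf := hG) (hg := hQ)
        refine Pool.Agent.CSG.ld_congr hq ?_
        have A1 : ∀ᶠ a : ℝ × ℂ × ℝ in 𝓝 (l, v, t), a.2.1 ≠ 0 :=
          (continuous_snd.fst).continuousAt.eventually_ne h0
        have A2 : ∀ᶠ a : ℝ × ℂ × ℝ in 𝓝 (l, v, t), ‖a.2.1‖ < 1 :=
          (continuous_snd.fst.norm).continuousAt.eventually_lt continuousAt_const h1
        filter_upwards [A1, A2] with a ha1 ha2
        exact hA1 a.1 a.2.1 a.2.2 ha1 ha2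
      exact Pool.Agent.CSG.ld_of_comp_left hcomp (hκ'.loc l v t h1)
    · refine Pool.Agent.CSG.ld_congr (D.A_loc p fun h => hp ((hK p).2 h)) ?_
      have hcl := COR.Kmv_closed hκ' (R := 7 / 8) (by norm_num)
      have hpC : p ∉ κ' '' {z : ℝ × ℂ × ℝ | ‖z.2.1‖ ≤ 7 / 8} := by
        rintro ⟨⟨l, v, t⟩, hv, rfl⟩
        have hv' : ‖v‖ ≤ 7 / 8 := hv
        exact hout _ hp hI l v t (by linarith) rfl
      filter_upwards [hcl.isOpen_compl.mem_nhds hpC] with y hy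
      by_cases hIy : In y
      · obtain ⟨⟨l, v, t⟩, h0, h1, rfl⟩ := hIy
        refine hA3 l v t ?_ h1
        by_contra hc
        exact hy ⟨(l, v, t), not_lt.1 hc, rfl⟩
      · exact hA2 y hIy
  · intro p p' hp hp' he
    by_cases hI : In p
    · obtain ⟨⟨l, v, t⟩, h0, h1, rfl⟩ := hI
      rw [hA1 l v t h0 h1] at he
      by_cases hI' : In p'
      · obtain ⟨⟨l', v', t'⟩, h0', h1', rfl⟩ := hI'
        rw [hA1 l' v' t' h0' h1'] at he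
        have h2 := D.Q_inj _ _ ((hne _).2 (hGne l v t h0 h1)) ((hne _).2 (hGne l' v' t' h0' h1')) he
        exact Gc_inj hκ' h0 h1 h0' h1' (Φ.injective h2)
      · rw [hA2 p' hI'] at he
        exact absurd he (hQA _ p' (hGne l v t h0 h1) hp' hI')
    · rw [hA2 p hI] at he
      by_cases hI' : In p'
      · obtain ⟨⟨l', v', t'⟩, h0', h1', rfl⟩ := hI'
        rw [hA1 l' v' t' h0' h1'] at he
        exact absurd he.symm (hQA _ p (hGne l' v' t' h0' h1') hp hI)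
      · rw [hA2 p' hI'] at he
        exact D.A_inj p p' (fun h => hp ((hK p).2 h)) (fun h => hp' ((hK p').2 h)) he
  · intro z hz
    exact IsLocalDiffeomorphAt.comp (hf := hΦ z) (hg := D.Q_loc _ ((hne z).2 hz))
  · intro z z' hz hz' he
    exact Φ.injective (D.Q_inj _ _ ((hne z).2 hz) ((hne z').2 hz') he)
  · intro z l m t hf h1 h2 e1 e2 e3
    have p1 := norm_pos_iff.2 h1
    have p2 := norm_pos_iff.2 h2
    have hv0 : ((2 * ‖c1 z‖ * ‖c2 z‖ : ℝ) : ℂ) * ex m ≠ 0 := by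
      refine mul_ne_zero ?_ (ex_ne m)
      have : (0 : ℝ) < 2 * ‖c1 z‖ * ‖c2 z‖ := by positivity
      exact_mod_cast this.ne'
    have hz : z = Gc n j' (l, (2 * ‖c1 z‖ * ‖c2 z‖ : ℝ) * ex m, t) := by
      refine Gc_eq n j' hf h1 h2 ?_ ?_ e3
      · rw [show ((1 : ℤ) : ℝ) * m + ((1 - j' : ℤ) : ℝ) * t = m + (1 - (j' : ℝ)) * t by push_cast; ring]
        exact e1
      · rw [show ((1 : ℤ) : ℝ) * m + ((-j' : ℤ) : ℝ) * t = m - (j' : ℝ) * t by push_cast; ring]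
        exact e2
    show D.Q (Φ z) = A' _
    rw [hA1 _ _ _ hv0 (glue_norm hf m), ← hz]
  · intro z p hf hz hp
    show D.Q (Φ z) ≠ A' p
    by_cases hI : In p
    · obtain ⟨⟨l, v, t⟩, h0, h1, rfl⟩ := hI
      rw [hA1 l v t h0 h1]
      intro he
      have h2 := Φ.injective (D.Q_inj _ _ ((hne z).2 hf) ((hne _).2 (hGne l v t h0 h1)) he)
      obtain ⟨_, b1, b2, _⟩ := Gc_spec n j' (l := l) (t := t) h0 h1
      rcases hz with hz | hz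
      · rw [h2] at hz
        exact b1 hz
      · rw [h2] at hz
        exact b2 hz
    · rw [hA2 p hI]
      exact hQA z p hf hp hI
  · intro q
    have hQc : ∀ z : S4, fh z ≠ 0 → ∃ z' : S4, fh z' ≠ 0 ∧ D.Q z = D.Q (Φ z') := fun z hz =>
      ⟨Φ.symm z, by
        rw [← hne (Φ.symm z), Equiv.apply_symm_apply]
        exact hz, by rw [Equiv.apply_symm_apply]⟩
    rcases D.cover q with ⟨p, hp, hq⟩ | ⟨z, hf, hq⟩
    · by_cases hI : In p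
      · obtain ⟨⟨l, v, t⟩, h0, h1, h2⟩ := hI
        obtain ⟨l', v', t', h3, h4⟩ := (htube p ‖v‖).1 ⟨l, v, t, rfl, h2⟩
        have h0' : v' ≠ 0 := by
          rw [← norm_ne_zero_iff, h3]
          exact norm_ne_zero_iff.2 h0
        have h1' : ‖v'‖ < 1 := by
          rw [h3]
          exact h1
        right
        obtain ⟨z', e1, e2⟩ := hQc (Gc n j (l', v', t')) (Gc_spec n j (l := l') (t := t') h0' h1').1
        refine ⟨z', e1, ?_⟩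
        rw [hq, h4, ← glue_Gc D h0' h1', e2]
      · refine Or.inl ⟨p, fun h => hp ((hK p).1 h), ?_⟩
        rw [hA2 p hI]
        exact hq
    · obtain ⟨z', e1, e2⟩ := hQc z hf
      exact Or.inr ⟨z', e1, by rw [hq, e2]⟩

end

end Pool.Agent.NHJ
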