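import Pool.Agent.RSG.SphA
import Pool.Agent.RSG.SphB
import Pool.Agent.RSG.ExM
import Pool.Agent.RSG.LDc
import Pool.Agent.CSG.FunBasic

/-!
# NHJ/Psi: the diffeomorphism `Ψ` of the 4-sphere

`rc χ v h c`, `rh χ v h c`: the rotation `w ↦ q w q⁻¹`, `w = h i + c j`, of `R × C` for the quaternion `q = v + χ j` (not normalised).  With
`χ = chi v` (`1` near `v = 0`, `0` for `‖v‖ ≥ 1/2`) this is a smooth family of rotations which is `(h, c) ↦ (h, (v / ‖v‖)² c)` for `‖v‖ ≥ 1/2`.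

`Psi z = (c2 z, R (c2 z) (- ht z, conj (c1 z)))` and its inverse `Psi'`.
-/

open scoped Manifold ContDiff Topology
open Set Filter
open Complex (I)
open Pool.Agent.CSG (stp)
open Pool.Agent.RSG

namespace Pool.Agent.NHJ

/-- rotation, component in `C` -/
noncomputable def rc (χ : ℝ) (v : ℂ) (h : ℝ) (c : ℂ) : ℂ :=
  (v ^ 2 * c + (χ : ℂ) ^ 2 * (starRingEnd ℂ) c - 2 * I * v * χ * h) / ((‖v‖ ^ 2 + χ ^ 2 : ℝ) : ℂ)

/-- rotation, component in `R` -/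
noncomputable def rh (χ : ℝ) (v : ℂ) (h : ℝ) (c : ℂ) : ℝ :=
  ((‖v‖ ^ 2 - χ ^ 2) * h + 2 * χ * (v * c).im) / (‖v‖ ^ 2 + χ ^ 2)

theorem Psi_nsq (v : ℂ) : ‖v‖ ^ 2 = v.re ^ 2 + v.im ^ 2 := by
  rw [← Complex.normSq_eq_norm_sq, Complex.normSq_apply]
  ring

theorem rc_re {χ : ℝ} {v : ℂ} (h : ℝ) (c : ℂ) : (rc χ v h c).re =
    ((v.re ^ 2 - v.im ^ 2) * c.re - 2 * v.re * v.im * c.im + χ ^ 2 * c.re + 2 * v.im * χ * h) / (v.re ^ 2 + v.im ^ 2 + χ ^ 2) := by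
  unfold rc
  rw [Complex.div_ofReal_re, Psi_nsq]
  congr 1
  simp only [pow_two, Complex.add_re, Complex.sub_re, Complex.mul_re, Complex.mul_im, Complex.add_im, Complex.sub_im, Complex.ofReal_re,
    Complex.ofReal_im, Complex.conj_re, Complex.conj_im, Complex.I_re, Complex.I_im, Complex.re_ofNat, Complex.im_ofNat]
  ring

theorem rc_im {χ : ℝ} {v : ℂ} (h : ℝ) (c : ℂ) : (rc χ v h c).im =
    ((v.re ^ 2 - v.im ^ 2) * c.im + 2 * v.re * v.im * c.re - χ ^ 2 * c.im - 2 * v.re * χ * h) / (v.re ^ 2 + v.im ^ 2 + χ ^ 2) := by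
  unfold rc
  rw [Complex.div_ofReal_im, Psi_nsq]
  congr 1
  simp only [pow_two, Complex.add_re, Complex.sub_re, Complex.mul_re, Complex.mul_im, Complex.add_im, Complex.sub_im, Complex.ofReal_re,
    Complex.ofReal_im, Complex.conj_re, Complex.conj_im, Complex.I_re, Complex.I_im, Complex.re_ofNat, Complex.im_ofNat]
  ring

theorem rh_eq {χ : ℝ} {v : ℂ} (h : ℝ) (c : ℂ) : rh χ v h c =
    ((v.re ^ 2 + v.im ^ 2 - χ ^ 2) * h + 2 * χ * (v.re * c.im + v.im * c.re)) / (v.re ^ 2 + v.im ^ 2 + χ ^ 2) := by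
  unfold rh
  rw [Psi_nsq, Complex.mul_im]

theorem rot_norm {χ : ℝ} {v : ℂ} (hN : v.re ^ 2 + v.im ^ 2 + χ ^ 2 ≠ 0) (h : ℝ) (c : ℂ) :
    ‖rc χ v h c‖ ^ 2 + rh χ v h c ^ 2 = ‖c‖ ^ 2 + h ^ 2 := by
  rw [Psi_nsq, Psi_nsq c, rc_re, rc_im, rh_eq]
  field_simp
  ring

theorem rot_inv_c {χ : ℝ} {v : ℂ} (hN : v.re ^ 2 + v.im ^ 2 + χ ^ 2 ≠ 0) (h : ℝ) (c : ℂ) :
    rc (-χ) ((starRingEnd ℂ) v) (rh χ v h c) (rc χ v h c) = c := by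
  have hN' : v.re ^ 2 + (-v.im) ^ 2 + (-χ) ^ 2 ≠ 0 := by
    intro h0
    exact hN (by rw [← h0]; ring)
  apply Complex.ext
  · rw [rc_re, rc_re, rc_im, rh_eq, Complex.conj_re, Complex.conj_im]
    field_simp
    ring
  · rw [rc_im, rc_re, rc_im, rh_eq, Complex.conj_re, Complex.conj_im]
    field_simp
    ring

theorem rot_inv_h {χ : ℝ} {v : ℂ} (hN : v.re ^ 2 + v.im ^ 2 + χ ^ 2 ≠ 0) (h : ℝ) (c : ℂ) :
    rh (-χ) ((starRingEnd ℂ) v) (rh χ v h c) (rc χ v h c) = h := by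
  rw [rh_eq, rc_re, rc_im, rh_eq, Complex.conj_re, Complex.conj_im]
  field_simp
  ring

/-- the cut off function -/
noncomputable def chi (v : ℂ) : ℝ := 1 - stp (1 / 16) (1 / 4) (‖v‖ ^ 2)

theorem chi_smooth : ContDiff ℝ ∞ chi := by
  have hn : ContDiff ℝ ∞ fun z : ℂ => ‖z‖ ^ 2 := contDiff_norm_sq ℝ
  exact contDiff_const.sub ((Pool.Agent.CSG.stp_smooth _ _).comp hn)

theorem chi_conj (v : ℂ) : chi ((starRingEnd ℂ) v) = chi v := by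
  unfold chi
  rw [RCLike.norm_conj]

theorem chi_zero {v : ℂ} (h : 1 / 4 ≤ ‖v‖ ^ 2) : chi v = 0 := by
  unfold chi
  rw [Pool.Agent.CSG.stp_one (by norm_num) h, sub_self]

theorem chi_pos (v : ℂ) : 0 < v.re ^ 2 + v.im ^ 2 + chi v ^ 2 := by
  by_cases h : 1 / 16 < ‖v‖ ^ 2
  · rw [Psi_nsq] at h
    nlinarith [sq_nonneg (chi v)]
  · have h1 : chi v = 1 := by
      unfold chi
      rw [Pool.Agent.CSG.stp_zero (by norm_num) (not_lt.1 h), sub_zero]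
    rw [h1]
    nlinarith [sq_nonneg v.re, sq_nonneg v.im]

theorem chi_pos' (v : ℂ) : v.re ^ 2 + (-v.im) ^ 2 + (-chi v) ^ 2 ≠ 0 := by
  have := chi_pos v
  rw [neg_sq, neg_sq]
  exact this.ne'

/-! ### the rotation for `χ = chi v` -/

theorem rc_far {v : ℂ} (hv : 1 / 4 ≤ ‖v‖ ^ 2) (s : ℝ) (h : ℝ) (c : ℂ) :
    rc (s * chi v) v h c = (v / ‖v‖) ^ 2 * c := by
  unfold rc
  rw [chi_zero hv]
  have h1 : (‖v‖ : ℂ) ≠ 0 := by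
    intro h0
    have h2 : ‖v‖ = 0 := by exact_mod_cast h0
    rw [h2] at hv
    norm_num at hv
  push_cast
  simp only [mul_zero, zero_mul, sub_zero, ne_eq, OfNat.ofNat_ne_zero, not_false_eq_true, zero_pow, add_zero]
  field_simp

theorem rh_far {v : ℂ} (hv : 1 / 4 ≤ ‖v‖ ^ 2) (s : ℝ) (h : ℝ) (c : ℂ) :
    rh (s * chi v) v h c = h := by
  unfold rh
  rw [chi_zero hv]
  have h1 : ‖v‖ ≠ 0 := by
    intro h2
    rw [h2] at hv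
    norm_num at hv
  simp only [mul_zero, zero_mul, sub_zero, ne_eq, OfNat.ofNat_ne_zero, not_false_eq_true, zero_pow, add_zero]
  field_simp

/-- the diffeomorphism -/
noncomputable def Psi (z : S4) : S4 :=
  pS4 (c2 z) (rc (chi (c2 z)) (c2 z) (-ht z) ((starRingEnd ℂ) (c1 z)))
    (rh (chi (c2 z)) (c2 z) (-ht z) ((starRingEnd ℂ) (c1 z)))

/-- the inverse -/
noncomputable def Psi' (z : S4) : S4 :=
  pS4 ((starRingEnd ℂ) (rc (-chi (c1 z)) ((starRingEnd ℂ) (c1 z)) (ht z) (c2 z))) (c1 z)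
    (-rh (-chi (c1 z)) ((starRingEnd ℂ) (c1 z)) (ht z) (c2 z))

theorem Psi_c (z : S4) : c1 (Psi z) = c2 z ∧
    c2 (Psi z) = rc (chi (c2 z)) (c2 z) (-ht z) ((starRingEnd ℂ) (c1 z)) ∧
    ht (Psi z) = rh (chi (c2 z)) (c2 z) (-ht z) ((starRingEnd ℂ) (c1 z)) := by
  refine pS4_c ?_
  have h1 := rot_norm (chi_pos (c2 z)).ne' (-ht z) ((starRingEnd ℂ) (c1 z))
  rw [RCLike.norm_conj] at h1
  have h2 := S4_sq z
  rw [add_assoc, h1]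
  linarith

theorem Psi'_norm (z : S4) : ‖rc (-chi (c1 z)) ((starRingEnd ℂ) (c1 z)) (ht z) (c2 z)‖ ^ 2 +
    rh (-chi (c1 z)) ((starRingEnd ℂ) (c1 z)) (ht z) (c2 z) ^ 2 = ‖c2 z‖ ^ 2 + ht z ^ 2 := by
  refine rot_norm ?_ (ht z) (c2 z)
  rw [Complex.conj_re, Complex.conj_im]
  exact chi_pos' (c1 z)

theorem Psi'_c (z : S4) :
    c1 (Psi' z) = (starRingEnd ℂ) (rc (-chi (c1 z)) ((starRingEnd ℂ) (c1 z)) (ht z) (c2 z)) ∧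
    c2 (Psi' z) = c1 z ∧ ht (Psi' z) = -rh (-chi (c1 z)) ((starRingEnd ℂ) (c1 z)) (ht z) (c2 z) := by
  refine pS4_c ?_
  have h1 := Psi'_norm z
  rw [RCLike.norm_conj, neg_sq]
  have h2 := S4_sq z
  linarith

theorem Psi'_Psi (z : S4) : Psi' (Psi z) = z := by
  obtain ⟨a1, a2, a3⟩ := Psi_c z
  obtain ⟨b1, b2, b3⟩ := Psi'_c (Psi z)
  have hN := (chi_pos (c2 z)).ne'
  refine S4_ext ?_ ?_ ?_
  · rw [b1, a1, a2, a3, rot_inv_c hN, Complex.conj_conj]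
  · rw [b2, a1]
  · rw [b3, a1, a2, a3, rot_inv_h hN, neg_neg]

theorem Psi_Psi' (z : S4) : Psi (Psi' z) = z := by
  obtain ⟨a1, a2, a3⟩ := Psi'_c z
  obtain ⟨b1, b2, b3⟩ := Psi_c (Psi' z)
  have hN : ((starRingEnd ℂ) (c1 z)).re ^ 2 + ((starRingEnd ℂ) (c1 z)).im ^ 2 + (-chi (c1 z)) ^ 2 ≠ 0 := by
    rw [Complex.conj_re, Complex.conj_im]
    exact chi_pos' (c1 z)
  have e1 := rot_inv_c hN (ht z) (c2 z)
  have e2 := rot_inv_h hN (ht z) (c2 z)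
  rw [neg_neg, Complex.conj_conj] at e1 e2
  refine S4_ext ?_ ?_ ?_
  · rw [b1, a2]
  · rw [b2, a1, a2, a3, neg_neg, Complex.conj_conj, e1]
  · rw [b3, a1, a2, a3, neg_neg, Complex.conj_conj, e2]

/-! ### smoothness -/

theorem rot_smooth {q : ℝ × ℂ × ℝ × ℂ} (hN : 0 < ‖q.2.1‖ ^ 2 + q.1 ^ 2) :
    ContDiffAt ℝ ∞ (fun q : ℝ × ℂ × ℝ × ℂ => rc q.1 q.2.1 q.2.2.1 q.2.2.2) q ∧
      ContDiffAt ℝ ∞ (fun q : ℝ × ℂ × ℝ × ℂ => rh q.1 q.2.1 q.2.2.1 q.2.2.2) q := by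
  have hχ : ContDiff ℝ ∞ fun q : ℝ × ℂ × ℝ × ℂ => q.1 := contDiff_fst
  have hv : ContDiff ℝ ∞ fun q : ℝ × ℂ × ℝ × ℂ => q.2.1 := contDiff_snd.fst
  have hh : ContDiff ℝ ∞ fun q : ℝ × ℂ × ℝ × ℂ => q.2.2.1 := contDiff_snd.snd.fst
  have hc : ContDiff ℝ ∞ fun q : ℝ × ℂ × ℝ × ℂ => q.2.2.2 := contDiff_snd.snd.snd
  have hn : ContDiff ℝ ∞ fun q : ℝ × ℂ × ℝ × ℂ => ‖q.2.1‖ ^ 2 := (contDiff_norm_sq ℝ).comp hv
  have hcj : ContDiff ℝ ∞ fun q : ℝ × ℂ × ℝ × ℂ => (starRingEnd ℂ) q.2.2.2 := Complex.conjCLE.contDiff.comp hc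
  have ofr : ∀ {f : ℝ × ℂ × ℝ × ℂ → ℝ}, ContDiff ℝ ∞ f → ContDiff ℝ ∞ fun x => ((f x : ℝ) : ℂ) := fun hf =>
    Complex.ofRealCLM.contDiff.comp hf
  have hd : ContDiff ℝ ∞ fun q : ℝ × ℂ × ℝ × ℂ => ‖q.2.1‖ ^ 2 + q.1 ^ 2 := hn.add (hχ.pow 2)
  have hne : ((‖q.2.1‖ ^ 2 + q.1 ^ 2 : ℝ) : ℂ) ≠ 0 := by exact_mod_cast hN.ne'
  constructor
  · have h1 : ContDiff ℝ ∞ fun q : ℝ × ℂ × ℝ × ℂ =>
        q.2.1 ^ 2 * q.2.2.2 + (q.1 : ℂ) ^ 2 * (starRingEnd ℂ) q.2.2.2 - 2 * I * q.2.1 * q.1 * q.2.2.1 :=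
      (((hv.pow 2).mul hc).add (((ofr hχ).pow 2).mul hcj)).sub
        (((contDiff_const.mul hv).mul (ofr hχ)).mul (ofr hh))
    have h2 : ContDiffAt ℝ ∞ (fun q : ℝ × ℂ × ℝ × ℂ => (((‖q.2.1‖ ^ 2 + q.1 ^ 2 : ℝ) : ℂ))⁻¹) q :=
      (ofr hd).contDiffAt.inv hne
    exact h1.contDiffAt.mul h2
  · have h1 : ContDiff ℝ ∞ fun q : ℝ × ℂ × ℝ × ℂ =>
        (‖q.2.1‖ ^ 2 - q.1 ^ 2) * q.2.2.1 + 2 * q.1 * (q.2.1 * q.2.2.2).im :=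
      ((hn.sub (hχ.pow 2)).mul hh).add ((contDiff_const.mul hχ).mul (Complex.imCLM.contDiff.comp (hv.mul hc)))
    exact h1.contDiffAt.div hd.contDiffAt hN.ne'

section
variable {EM : Type*} [NormedAddCommGroup EM] [NormedSpace ℝ EM] {HM : Type*} [TopologicalSpace HM]
  {JM : ModelWithCorners ℝ EM HM} {M : Type*} [TopologicalSpace M] [ChartedSpace HM M]

theorem rot_sm {χ : M → ℝ} {v : M → ℂ} {h : M → ℝ} {c : M → ℂ} {x : M} (hχ : ContMDiffAt JM 𝓘(ℝ, ℝ) ∞ χ x)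
    (hv : ContMDiffAt JM 𝓘(ℝ, ℂ) ∞ v x) (hh : ContMDiffAt JM 𝓘(ℝ, ℝ) ∞ h x) (hc : ContMDiffAt JM 𝓘(ℝ, ℂ) ∞ c x)
    (hN : 0 < ‖v x‖ ^ 2 + χ x ^ 2) :
    ContMDiffAt JM 𝓘(ℝ, ℂ) ∞ (fun x => rc (χ x) (v x) (h x) (c x)) x ∧
      ContMDiffAt JM 𝓘(ℝ, ℝ) ∞ (fun x => rh (χ x) (v x) (h x) (c x)) x := by
  have h0 := rot_smooth (q := (χ x, v x, h x, c x)) hN
  have h1 : ContMDiffAt JM 𝓘(ℝ, ℝ × ℂ × ℝ × ℂ) ∞ (fun x => (χ x, v x, h x, c x)) x :=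
    hχ.prodMk_space (hv.prodMk_space (hh.prodMk_space hc))
  exact ⟨ContMDiffAt.comp (g := fun q : ℝ × ℂ × ℝ × ℂ => rc q.1 q.2.1 q.2.2.1 q.2.2.2) (f := fun x => (χ x, v x, h x, c x)) x
      h0.1.contMDiffAt h1,
    ContMDiffAt.comp (g := fun q : ℝ × ℂ × ℝ × ℂ => rh q.1 q.2.1 q.2.2.1 q.2.2.2) (f := fun x => (χ x, v x, h x, c x)) x
      h0.2.contMDiffAt h1⟩

theorem chi_sm {v : M → ℂ} {x : M} (hv : ContMDiffAt JM 𝓘(ℝ, ℂ) ∞ v x) :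
    ContMDiffAt JM 𝓘(ℝ, ℝ) ∞ (fun x => chi (v x)) x :=
  ContMDiffAt.comp (g := chi) (f := v) x chi_smooth.contMDiff.contMDiffAt hv

theorem conj_sm {v : M → ℂ} {x : M} (hv : ContMDiffAt JM 𝓘(ℝ, ℂ) ∞ v x) :
    ContMDiffAt JM 𝓘(ℝ, ℂ) ∞ (fun x => (starRingEnd ℂ) (v x)) x :=
  ContMDiffAt.comp (g := fun w : ℂ => (starRingEnd ℂ) w) (f := v) x Complex.conjCLE.contDiff.contMDiff.contMDiffAt hv

theorem neg_sm {v : M → ℝ} {x : M} (hv : ContMDiffAt JM 𝓘(ℝ, ℝ) ∞ v x) :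
    ContMDiffAt JM 𝓘(ℝ, ℝ) ∞ (fun x => -v x) x :=
  ContMDiffAt.comp (g := fun w : ℝ => -w) (f := v) x contDiff_neg.contMDiff.contMDiffAt hv

end

theorem Psi_smooth (z : S4) : ContMDiffAt (𝓡 4) (𝓡 4) ∞ Psi z := by
  have hN : 0 < ‖c2 z‖ ^ 2 + chi (c2 z) ^ 2 := by
    have := chi_pos (c2 z)
    rwa [← Psi_nsq] at this
  have h0 := rot_sm (χ := fun z : S4 => chi (c2 z)) (v := c2) (h := fun z => -ht z) (c := fun z => (starRingEnd ℂ) (c1 z)) (x := z)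
    (chi_sm (c2_smooth z)) (c2_smooth z) (neg_sm (ht_smooth z)) (conj_sm (c1_smooth z)) hN
  refine pS4_smooth (c2_smooth z) h0.1 h0.2 ?_
  have h1 := rot_norm (chi_pos (c2 z)).ne' (-ht z) ((starRingEnd ℂ) (c1 z))
  rw [RCLike.norm_conj] at h1
  have h2 := S4_sq z
  rw [add_assoc, h1]
  nlinarith

theorem Psi'_smooth (z : S4) : ContMDiffAt (𝓡 4) (𝓡 4) ∞ Psi' z := by
  have hN : 0 < ‖(starRingEnd ℂ) (c1 z)‖ ^ 2 + (-chi (c1 z)) ^ 2 := by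
    have := chi_pos (c1 z)
    rw [RCLike.norm_conj, neg_sq]
    rwa [← Psi_nsq] at this
  have h0 := rot_sm (χ := fun z : S4 => -chi (c1 z)) (v := fun z => (starRingEnd ℂ) (c1 z)) (h := ht) (c := c2) (x := z)
    (neg_sm (chi_sm (c1_smooth z))) (conj_sm (c1_smooth z)) (ht_smooth z) (c2_smooth z) hN
  refine pS4_smooth (conj_sm h0.1) (c1_smooth z) (neg_sm h0.2) ?_
  have h1 := Psi'_norm z
  rw [RCLike.norm_conj, neg_sq]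
  have h2 := S4_sq z
  nlinarith

/-- `Psi` as a permutation -/
noncomputable def PsiP : Equiv.Perm S4 where
  toFun := Psi
  invFun := Psi'
  left_inv := Psi'_Psi
  right_inv := Psi_Psi'

theorem PsiP_ld (z : S4) : IsLocalDiffeomorphAt (𝓡 4) (𝓡 4) ∞ PsiP z :=
  ld_two (f := Psi) (g := Psi') (Eventually.of_forall Psi_smooth) (Eventually.of_forall Psi'_smooth)
    (Eventually.of_forall Psi'_Psi) (Eventually.of_forall Psi_Psi')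

theorem PsiP_symm_ld (z : S4) : IsLocalDiffeomorphAt (𝓡 4) (𝓡 4) ∞ PsiP.symm z :=
  ld_two (f := Psi') (g := Psi) (Eventually.of_forall Psi'_smooth) (Eventually.of_forall Psi_smooth)
    (Eventually.of_forall Psi_Psi') (Eventually.of_forall Psi'_Psi)

/-! ### near the torus -/

/-- near the torus both coordinates are at least `1/2` -/
theorem far_of {z : S4} (h : 7 / 8 < 2 * ‖c1 z‖ * ‖c2 z‖) : 1 / 4 ≤ ‖c1 z‖ ^ 2 ∧ 1 / 4 ≤ ‖c2 z‖ ^ 2 := by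
  have h1 := S4_sq z
  have p1 := norm_nonneg (c1 z)
  have p2 := norm_nonneg (c2 z)
  have h2 : 49 / 64 < 4 * (‖c1 z‖ ^ 2 * ‖c2 z‖ ^ 2) := by nlinarith
  constructor
  · by_contra hc
    have hc := not_le.1 hc
    nlinarith [sq_nonneg (ht z), sq_nonneg ‖c2 z‖, sq_nonneg ‖c1 z‖]
  · by_contra hc
    have hc := not_le.1 hc
    nlinarith [sq_nonneg (ht z), sq_nonneg ‖c2 z‖, sq_nonneg ‖c1 z‖]

theorem Psi_far {z : S4} (h : 1 / 4 ≤ ‖c2 z‖ ^ 2) : c1 (Psi z) = c2 z ∧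
    c2 (Psi z) = (c2 z / ‖c2 z‖) ^ 2 * (starRingEnd ℂ) (c1 z) ∧ ht (Psi z) = -ht z := by
  obtain ⟨a1, a2, a3⟩ := Psi_c z
  have e1 := rc_far h 1 (-ht z) ((starRingEnd ℂ) (c1 z))
  have e2 := rh_far h 1 (-ht z) ((starRingEnd ℂ) (c1 z))
  rw [one_mul] at e1 e2
  exact ⟨a1, a2.trans e1, a3.trans e2⟩

theorem Psi'_far {z : S4} (h : 1 / 4 ≤ ‖c1 z‖ ^ 2) :
    c1 (Psi' z) = (c1 z / ‖c1 z‖) ^ 2 * (starRingEnd ℂ) (c2 z) ∧ c2 (Psi' z) = c1 z ∧ ht (Psi' z) = -ht z := by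
  obtain ⟨a1, a2, a3⟩ := Psi'_c z
  have h' : 1 / 4 ≤ ‖(starRingEnd ℂ) (c1 z)‖ ^ 2 := by rwa [RCLike.norm_conj]
  have e1 := rc_far h' (-1) (ht z) (c2 z)
  have e2 := rh_far h' (-1) (ht z) (c2 z)
  rw [chi_conj, neg_one_mul] at e1 e2
  refine ⟨?_, a2, by rw [a3, e2]⟩
  rw [a1, e1, map_mul, map_pow, map_div₀, Complex.conj_conj, Complex.conj_ofReal, RCLike.norm_conj]

theorem unit_sq {w : ℂ} (h : 1 / 4 ≤ ‖w‖ ^ 2) : ‖(w / (‖w‖ : ℂ)) ^ 2‖ = 1 := by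
  have h1 : ‖w‖ ≠ 0 := by
    intro h2
    rw [h2] at h
    norm_num at h
  rw [norm_pow, norm_div, Complex.norm_real, norm_norm, div_self h1, one_pow]

theorem fh_of {z z' : S4} (h1 : ‖c1 z'‖ = ‖c2 z‖) (h2 : ‖c2 z'‖ = ‖c1 z‖) (h3 : ht z' = -ht z) : fh z' = -fh z := by
  unfold fh
  rw [h1, h2, h3]
  apply Complex.ext
  · simp
  · simp

theorem Psi_fh {z : S4} (h : 1 / 4 ≤ ‖c2 z‖ ^ 2) : fh (Psi z) = -fh z := by
  obtain ⟨a1, a2, a3⟩ := Psi_far h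
  exact fh_of (by rw [a1]) (by rw [a2, norm_mul, unit_sq h, one_mul, RCLike.norm_conj]) a3

theorem Psi'_fh {z : S4} (h : 1 / 4 ≤ ‖c1 z‖ ^ 2) : fh (Psi' z) = -fh z := by
  obtain ⟨a1, a2, a3⟩ := Psi'_far h
  exact fh_of (by rw [a1, norm_mul, unit_sq h, one_mul, RCLike.norm_conj]) (by rw [a2]) a3

/-- a coordinate of norm less than `1/2` is far from the torus -/
theorem ne_of_small {z : S4} (h : ‖c1 z‖ ^ 2 < 1 / 4 ∨ ‖c2 z‖ ^ 2 < 1 / 4) : fh z ≠ 0 := by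
  rw [fh_ne_iff]
  by_contra hc
  have h1 := far_of (z := z) (by linarith [not_lt.1 hc])
  rcases h with h | h
  · linarith [h1.1]
  · linarith [h1.2]

theorem Psi_ne (z : S4) : fh (Psi z) ≠ 0 ↔ fh z ≠ 0 := by
  by_cases h : 1 / 4 ≤ ‖c2 z‖ ^ 2
  · rw [Psi_fh h, neg_ne_zero]
  · have h' := not_le.1 h
    refine ⟨fun _ => ne_of_small (Or.inr h'), fun _ => ne_of_small (Or.inl ?_)⟩
    rw [(Psi_c z).1]
    exact h'

theorem Psi'_ne (z : S4) : fh (Psi' z) ≠ 0 ↔ fh z ≠ 0 := by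
  have h := Psi_ne (Psi' z)
  rw [Psi_Psi'] at h
  exact h.symm

end Pool.Agent.NHJ
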